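import Pool.Agent.TH360.BF.Quot
import Pool.Agent.Results.MP_e8ee11_co.BeckFialaIterFree

/-!
# Explicit bound for set systems with a free abelian group of symmetries
-/

set_option autoImplicit false

namespace Pool.Agent.TH360.BF

open Finset MulAction

/-- the bound of the starting files for set systems without symmetries -/
lemma good_start : ∃ C : ℝ, 0 ≤ C ∧ ∀ t n : ℕ, 1 ≤ t →
    GoodSys t n (C * (Real.sqrt t + (1 + Real.log t) ^ (3 / 2 : ℝ) * Real.sqrt (Real.log (1 + n)))) := by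
  classical
  obtain ⟨C, hC⟩ := Pool.Agent.Results.MP_e8ee11_co.BeckFialaIterFree.result
  refine ⟨max C 0, le_max_right _ _, ?_⟩
  intro t n ht m k S hk hdeg
  obtain ⟨⟨χ, h1, h2⟩, -⟩ := hC m k t (max 1 k) ht (le_max_left _ _) S hdeg
    (fun i => by
      refine le_trans (Finset.card_le_univ _) ?_
      rw [Fintype.card_fin]
      exact le_max_right _ _) 0 (fun _ => 0) (fun _ => by simp)
  refine ⟨χ, h1, fun i => ?_⟩
  have h3 := h2 i
  simp only [sub_zero, Nat.cast_zero, mul_zero, zero_mul, zero_add, Function.iterate_one] at h3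
  have htR : (1 : ℝ) ≤ t := by exact_mod_cast ht
  have hl : 0 ≤ Real.log (t : ℝ) := Real.log_nonneg htR
  have e1 : ((|∑ x ∈ S i, χ x| : ℤ) : ℝ) = |∑ x ∈ S i, (χ x : ℝ)| := by
    push_cast
    rfl
  rw [e1]
  have hmin : ((min m k : ℕ) : ℝ) ≤ n := by
    have : min m k ≤ n := (min_le_right _ _).trans hk
    exact_mod_cast this
  have h0 : (0 : ℝ) ≤ ((min m k : ℕ) : ℝ) := Nat.cast_nonneg _
  have h4 : Real.sqrt (Real.log (1 + ((min m k : ℕ) : ℝ))) ≤ Real.sqrt (Real.log (1 + n)) :=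
    Real.sqrt_le_sqrt (Real.log_le_log (by linarith) (by linarith))
  refine h3.trans ?_
  have h5 : 0 ≤ Real.sqrt t + (1 + Real.log t) ^ (3 / 2 : ℝ) *
      Real.sqrt (Real.log (1 + ((min m k : ℕ) : ℝ))) := by positivity
  calc C * (Real.sqrt t + (1 + Real.log t) ^ (3 / 2 : ℝ) *
        Real.sqrt (Real.log (1 + ((min m k : ℕ) : ℝ))))
      ≤ max C 0 * (Real.sqrt t + (1 + Real.log t) ^ (3 / 2 : ℝ) *
        Real.sqrt (Real.log (1 + ((min m k : ℕ) : ℝ)))) :=
        mul_le_mul_of_nonneg_right (le_max_left _ _) h5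
    _ ≤ _ := by
        apply mul_le_mul_of_nonneg_left _ (le_max_right _ _)
        have h6 : 0 ≤ (1 + Real.log t) ^ (3 / 2 : ℝ) := by positivity
        have := mul_le_mul_of_nonneg_left h4 h6
        linarith

lemma sq_log (t : ℝ) (ht : 1 ≤ t) : (1 + Real.log t) ^ 2 ≤ 4 * Real.sqrt t := by
  set s := Real.sqrt t with hs
  have hs1 : 1 ≤ s := Real.one_le_sqrt.mpr ht
  set y := Real.sqrt s with hy
  have hy1 : 1 ≤ y := Real.one_le_sqrt.mpr hs1
  have hys : y ^ 2 = s := Real.sq_sqrt (by linarith)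
  have hst : s ^ 2 = t := Real.sq_sqrt (by linarith)
  have hty : t = y ^ 4 := by rw [← hst, ← hys]; ring
  have h1 : Real.log t = 4 * Real.log y := by rw [hty, Real.log_pow]; norm_num
  have h2 : Real.log (y / 2) ≤ y / 2 - 1 := Real.log_le_sub_one_of_pos (by linarith)
  rw [Real.log_div (by linarith) (by norm_num)] at h2
  have h3 := Real.log_two_lt_d9
  have h4 : 1 + Real.log t ≤ 2 * y := by rw [h1]; linarith
  have h5 : 0 ≤ Real.log t := Real.log_nonneg ht
  nlinarith

lemma num (r t e : ℕ) (hr : 1 ≤ r) (ht : 1 ≤ t) (he : 1 ≤ e) :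
    Real.sqrt t + (1 + Real.log t) ^ (3 / 2 : ℝ) *
      Real.sqrt (Real.log (1 + ((r * e ^ (Nat.log 2 (r * t ^ 2) + 1) : ℕ) : ℝ))) ≤
    8 * (Real.sqrt (1 + Real.log e) *
      (Real.sqrt t + (1 + Real.log t) ^ (3 / 2 : ℝ) * Real.sqrt (Real.log r))) := by
  have hrR : (1 : ℝ) ≤ r := by exact_mod_cast hr
  have htR : (1 : ℝ) ≤ t := by exact_mod_cast ht
  have heR : (1 : ℝ) ≤ e := by exact_mod_cast he
  have lr : 0 ≤ Real.log (r : ℝ) := Real.log_nonneg hrR
  have lt : 0 ≤ Real.log (t : ℝ) := Real.log_nonneg htR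
  have le : 0 ≤ Real.log (e : ℝ) := Real.log_nonneg heR
  set K := Nat.log 2 (r * t ^ 2) with hK
  have hK1 : (K : ℝ) ≤ 1.45 * (Real.log r + 2 * Real.log t) := by
    have h1 : (2 : ℝ) ^ K ≤ r * t ^ 2 := by
      have : 2 ^ K ≤ r * t ^ 2 := Nat.pow_log_le_self 2 (by positivity)
      exact_mod_cast this
    have h2 := Real.log_le_log (by positivity) h1
    rw [Real.log_pow, Real.log_mul (by positivity) (by positivity), Real.log_pow] at h2
    push_cast at h2
    have h3 := Real.log_two_gt_d9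
    have h4 : (0 : ℝ) ≤ K := Nat.cast_nonneg _
    nlinarith
  have hlog : Real.log (1 + ((r * e ^ (K + 1) : ℕ) : ℝ)) ≤
      3 * (1 + Real.log e) * ((1 + Real.log t) + Real.log r) := by
    push_cast
    have h1 : (1 : ℝ) ≤ r * (e : ℝ) ^ (K + 1) := by
      have := one_le_pow₀ (n := K + 1) heR
      nlinarith
    have h2 : Real.log (1 + r * (e : ℝ) ^ (K + 1)) ≤ Real.log (2 * (r * (e : ℝ) ^ (K + 1))) :=
      Real.log_le_log (by linarith) (by linarith)
    rw [Real.log_mul (by norm_num) (by positivity), Real.log_mul (by positivity) (by positivity),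
      Real.log_pow] at h2
    push_cast at h2
    have h3 := Real.log_two_lt_d9
    have h4 : (K + 1 : ℝ) * Real.log e ≤ (1.45 * (Real.log r + 2 * Real.log t) + 1) * Real.log e :=
      mul_le_mul_of_nonneg_right (by linarith) le
    have h5 : 0 ≤ Real.log r * Real.log e := mul_nonneg lr le
    have h6 : 0 ≤ Real.log t * Real.log e := mul_nonneg lt le
    nlinarith
  have hsq : Real.sqrt (Real.log (1 + ((r * e ^ (K + 1) : ℕ) : ℝ))) ≤
      1.75 * Real.sqrt (1 + Real.log e) * (Real.sqrt (1 + Real.log t) + Real.sqrt (Real.log r)) := by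
    refine (Real.sqrt_le_sqrt hlog).trans ?_
    rw [Real.sqrt_mul (by positivity), Real.sqrt_mul (by norm_num)]
    have h1 : Real.sqrt 3 ≤ 1.75 := by
      rw [Real.sqrt_le_left (by norm_num)]; norm_num
    have h2 : Real.sqrt ((1 + Real.log t) + Real.log r) ≤
        Real.sqrt (1 + Real.log t) + Real.sqrt (Real.log r) := by
      rw [Real.sqrt_le_left (by positivity)]
      have e1 := Real.sq_sqrt (show 0 ≤ 1 + Real.log (t : ℝ) by linarith)
      have e2 := Real.sq_sqrt lr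
      have e3 := mul_nonneg (Real.sqrt_nonneg (1 + Real.log (t : ℝ))) (Real.sqrt_nonneg (Real.log (r : ℝ)))
      nlinarith
    apply mul_le_mul _ h2 (Real.sqrt_nonneg _) (by positivity)
    exact mul_le_mul_of_nonneg_right h1 (Real.sqrt_nonneg _)
  set E := Real.sqrt (1 + Real.log e) with hE
  have hE1 : 1 ≤ E := Real.one_le_sqrt.mpr (by linarith)
  set P := (1 + Real.log (t : ℝ)) ^ (3 / 2 : ℝ) with hP
  have hP0 : 0 ≤ P := by positivity
  have hPs : P * Real.sqrt (1 + Real.log t) = (1 + Real.log t) ^ 2 := by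
    rw [hP, Real.sqrt_eq_rpow, ← Real.rpow_add (by linarith), ← Real.rpow_natCast]
    norm_num
  have h4 := sq_log t htR
  have hst : 0 ≤ Real.sqrt (t : ℝ) := Real.sqrt_nonneg _
  set R := Real.sqrt (Real.log (r : ℝ)) with hR
  have hR0 : 0 ≤ R := Real.sqrt_nonneg _
  calc Real.sqrt t + P * Real.sqrt (Real.log (1 + ((r * e ^ (K + 1) : ℕ) : ℝ)))
      ≤ Real.sqrt t + P * (1.75 * E * (Real.sqrt (1 + Real.log t) + R)) := by
        have := mul_le_mul_of_nonneg_left hsq hP0
        linarith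
    _ = Real.sqrt t + 1.75 * E * (1 + Real.log t) ^ 2 + 1.75 * E * (P * R) := by
        rw [← hPs]; ring
    _ ≤ E * Real.sqrt t + 1.75 * E * (4 * Real.sqrt t) + 1.75 * E * (P * R) := by
        have a1 : Real.sqrt (t : ℝ) ≤ E * Real.sqrt t := by nlinarith
        have a2 : 1.75 * E * (1 + Real.log t) ^ 2 ≤ 1.75 * E * (4 * Real.sqrt t) :=
          mul_le_mul_of_nonneg_left h4 (by positivity)
        linarith
    _ ≤ 8 * (E * (Real.sqrt t + P * R)) := by
        have : 0 ≤ E * (P * R) := by positivity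
        nlinarith

theorem explicit : ∃ C : ℝ, ∀ (e : ℕ) (H M V : Type) [CommGroup H] [Finite H] [Fintype M]
    [Fintype V] [MulAction H M] [MulAction H V] (S : M → Finset V) (t : ℕ), 1 ≤ e → 1 ≤ t →
    (∀ a : H, a ^ e = 1) →
    (∀ (a : H) (i : M), a • i = i → a = 1) → (∀ (a : H) (x : V), a • x = x → a = 1) →
    (∀ (a : H) (i : M) (x : V), a • x ∈ S (a • i) ↔ x ∈ S i) →
    (∀ x : V, Nat.card {i : M // x ∈ S i} ≤ t) →
    ∃ χ : V → ℤ, (∀ x, χ x = 1 ∨ χ x = -1) ∧ ∀ i, ((|∑ x ∈ S i, χ x| : ℤ) : ℝ) ≤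
      C * Real.sqrt (1 + Real.log e) * (Real.sqrt t + (1 + Real.log t) ^ (3 / 2 : ℝ) *
        Real.sqrt (Real.log (Nat.card (orbitRel.Quotient H V)))) := by
  obtain ⟨C, hC0, hC⟩ := good_start
  refine ⟨8 * C, ?_⟩
  intro e H M V _ _ _ _ _ _ S t he ht hexp hM hV hinv hdeg
  let _ : Fintype H := Fintype.ofFinite H
  have htR : (1 : ℝ) ≤ t := by exact_mod_cast ht
  have heR : (1 : ℝ) ≤ e := by exact_mod_cast he
  have lt : 0 ≤ Real.log (t : ℝ) := Real.log_nonneg htR
  rcases isEmpty_or_nonempty V with hE | hNe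
  · refine ⟨fun _ => 1, fun _ => Or.inl rfl, fun i => ?_⟩
    have : S i = ∅ := Finset.eq_empty_of_isEmpty _
    rw [this]
    simp only [Finset.sum_empty, abs_zero, Int.cast_zero]
    positivity
  · have : Nonempty (orbitRel.Quotient H V) := ⟨Quotient.mk'' (Classical.arbitrary V)⟩
    have hr : 1 ≤ Nat.card (orbitRel.Quotient H V) := Nat.card_pos
    obtain ⟨χ, h1, h2⟩ := reduce e he hexp S hM hV hinv t hdeg _ (hC t _ ht)
    refine ⟨χ, h1, fun i => (h2 i).trans ?_⟩
    have h3 := mul_le_mul_of_nonneg_left (num _ t e hr ht he) hC0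
    refine h3.trans (le_of_eq ?_)
    ring

end Pool.Agent.TH360.BF
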