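import Mathlib

/-!
# Subgroups of small index avoiding a given finite set
-/

set_option autoImplicit false

namespace Pool.Agent.TH360.BF

open Finset

variable {H : Type} [CommGroup H] [Finite H]

/-- the group of characters with values in the `e`-th roots of unity -/
abbrev Ch (e : ℕ) (H : Type) [CommGroup H] := H →* rootsOfUnity e ℂ

lemma exists_ch (e : ℕ) (hexp : ∀ a : H, a ^ e = 1) {a : H} (ha : a ≠ 1) :
    ∃ φ : Ch e H, φ a ≠ 1 := by
  obtain ⟨φ, hφ⟩ := CommGroup.exists_apply_ne_one_of_hasEnoughRootsOfUnity H ℂ ha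
  refine ⟨MonoidHom.codRestrict φ (rootsOfUnity e ℂ) (fun x => ?_), ?_⟩
  · rw [mem_rootsOfUnity, ← map_pow, hexp, map_one]
  · intro h
    apply hφ
    exact congrArg Subtype.val h

/-- a character which separates half of the set -/
lemma halve (e : ℕ) (he : 1 ≤ e) (hexp : ∀ a : H, a ^ e = 1) (F : Finset H)
    (hF : ∀ a ∈ F, a ≠ 1) :
    ∃ φ : Ch e H, 2 * (F.filter fun a => φ a = 1).card ≤ F.card := by
  classical
  have : NeZero e := ⟨by omega⟩
  have hfin : Finite (Ch e H) := DFunLike.finite _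
  let _ : Fintype (Ch e H) := Fintype.ofFinite _
  have h1 : ∀ a ∈ F, 2 * (univ.filter fun φ : Ch e H => φ a = 1).card ≤ Fintype.card (Ch e H) := by
    intro a ha
    obtain ⟨φ₀, hφ₀⟩ := exists_ch e hexp (hF a ha)
    have h2 : (univ.filter fun φ : Ch e H => φ a = 1).card ≤
        (univ.filter fun φ : Ch e H => ¬ φ a = 1).card := by
      apply Finset.card_le_card_of_injOn (fun φ => φ * φ₀)
      · intro φ hφ
        simp only [Finset.coe_filter, Finset.mem_univ, true_and, Set.mem_ofPred_eq] at hφ ⊢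
        rw [MonoidHom.mul_apply, hφ, one_mul]
        exact hφ₀
      · intro φ _ ψ _ h
        exact mul_right_cancel h
    have h3 := Finset.card_filter_add_card_filter_not (s := (univ : Finset (Ch e H)))
      (fun φ : Ch e H => φ a = 1)
    rw [Finset.card_univ] at h3
    omega
  have h4 : ∑ φ : Ch e H, 2 * (F.filter fun a => φ a = 1).card ≤ ∑ _φ : Ch e H, F.card := by
    have h5 : ∑ φ : Ch e H, (F.filter fun a => φ a = 1).card =
        ∑ a ∈ F, (univ.filter fun φ : Ch e H => φ a = 1).card := by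
      simp_rw [Finset.card_filter]
      rw [Finset.sum_comm]
    rw [← Finset.mul_sum, h5, Finset.mul_sum, Finset.sum_const, Finset.card_univ, smul_eq_mul,
      mul_comm _ F.card, ← smul_eq_mul, ← Finset.sum_const]
    exact Finset.sum_le_sum h1
  obtain ⟨φ, _, hφ⟩ := Finset.exists_le_of_sum_le (s := (univ : Finset (Ch e H)))
    ⟨1, Finset.mem_univ _⟩ h4
  exact ⟨φ, hφ⟩

/-- subgroups of small index avoiding a set -/
theorem sep (e : ℕ) (he : 1 ≤ e) (hexp : ∀ a : H, a ^ e = 1) :
    ∀ (k : ℕ) (F : Finset H), (∀ a ∈ F, a ≠ 1) → F.card < 2 ^ k →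
      ∃ N : Subgroup H, (∀ a ∈ F, a ∉ N) ∧ N.index ≤ e ^ k := by
  classical
  intro k
  induction k with
  | zero =>
    intro F _ hc
    have : F = ∅ := by
      rw [← Finset.card_eq_zero]; simpa using hc
    refine ⟨⊤, ?_, by simp⟩
    rw [this]
    simp
  | succ k ih =>
    intro F hF hc
    obtain ⟨φ, hφ⟩ := halve e he hexp F hF
    obtain ⟨N, h1, h2⟩ := ih (F.filter fun a => φ a = 1) (fun a ha => hF a (Finset.mem_filter.mp ha).1)
      (by rw [pow_succ] at hc; omega)
    have : NeZero e := ⟨by omega⟩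
    refine ⟨N ⊓ φ.ker, ?_, ?_⟩
    · intro a ha hN
      rw [Subgroup.mem_inf, MonoidHom.mem_ker] at hN
      exact h1 a (Finset.mem_filter.mpr ⟨ha, hN.2⟩) hN.1
    · calc (N ⊓ φ.ker).index ≤ N.index * φ.ker.index := Subgroup.index_inf_le
        _ ≤ e ^ k * e := by
          apply Nat.mul_le_mul h2
          rw [Subgroup.index_ker]
          calc Nat.card φ.range ≤ Nat.card (rootsOfUnity e ℂ) := Subgroup.card_le_card_group _
            _ ≤ e := (Complex.card_rootsOfUnity e).le
        _ = e ^ (k + 1) := (pow_succ _ _).symm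

end Pool.Agent.TH360.BF
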