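import Mathlib
import Pool.Agent.TH360.BF.Sep
import Pool.Agent.H422R3.Kom.Main

/-!
# Set systems with a free action of a finite abelian group: reduction to few points
-/

set_option autoImplicit false

namespace Pool.Agent.TH360.BF

open Finset MulAction

/-- all set systems of maximum degree at most `t` on at most `n` points have discrepancy at most `B` -/
def GoodSys (t n : ℕ) (B : ℝ) : Prop :=
  ∀ (m k : ℕ) (S : Fin m → Finset (Fin k)), k ≤ n →
    (∀ x, (univ.filter fun i => x ∈ S i).card ≤ t) →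
    ∃ χ : Fin k → ℤ, (∀ x, χ x = 1 ∨ χ x = -1) ∧ ∀ i, ((|∑ x ∈ S i, χ x| : ℤ) : ℝ) ≤ B

lemma good_types {t n : ℕ} {B : ℝ} (h : GoodSys t n B) {M V : Type} [Fintype M] [Fintype V]
    (S : M → Finset V) (hV : Fintype.card V ≤ n) (hdeg : ∀ x, Nat.card {i : M // x ∈ S i} ≤ t) :
    ∃ χ : V → ℤ, (∀ x, χ x = 1 ∨ χ x = -1) ∧ ∀ i, ((|∑ x ∈ S i, χ x| : ℤ) : ℝ) ≤ B := by
  classical
  let eM := Fintype.equivFin M
  let eV := Fintype.equivFin V
  obtain ⟨χ, h1, h2⟩ := h (Fintype.card M) (Fintype.card V)
    (fun i => (S (eM.symm i)).map eV.toEmbedding) hV (by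
      intro x
      refine le_trans (le_of_eq ?_) (hdeg (eV.symm x))
      rw [Nat.card_eq_fintype_card, Fintype.card_subtype]
      refine Finset.card_bij (fun i _ => eM.symm i) ?_ ?_ ?_
      · intro i hi
        rw [Finset.mem_filter] at hi ⊢
        refine ⟨Finset.mem_univ _, ?_⟩
        obtain ⟨y, hy, hyx⟩ := Finset.mem_map.mp hi.2
        rw [← hyx]
        simpa using hy
      · intro i _ j _ hij
        exact eM.symm.injective hij
      · intro i hi
        rw [Finset.mem_filter] at hi
        refine ⟨eM i, ?_, by simp⟩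
        rw [Finset.mem_filter]
        refine ⟨Finset.mem_univ _, ?_⟩
        rw [Finset.mem_map]
        exact ⟨eV.symm x, by simpa using hi.2, by simp⟩)
  refine ⟨fun x => χ (eV x), fun x => h1 _, fun i => ?_⟩
  have h3 := h2 (eM i)
  simp only [eM.symm_apply_apply] at h3
  rw [Finset.sum_map] at h3
  exact h3

variable {H : Type} [CommGroup H] [Fintype H]

/-- number of points of the quotient -/
lemma card_quot {V : Type} [Fintype V] [MulAction H V] (hV : ∀ (a : H) (x : V), a • x = x → a = 1)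
    (N : Subgroup H) :
    Nat.card (orbitRel.Quotient N V) = Nat.card (orbitRel.Quotient H V) * N.index := by
  classical
  have h1 : Nat.card (orbitRel.Quotient H V × H) = Nat.card V :=
    Nat.card_congr (Equiv.ofBijective _ (Pool.Agent.H422R3.Kom.coords (H := H) (X := V) hV))
  have hN : ∀ (a : N) (x : V), a • x = x → a = 1 := by
    intro a x h
    have := hV (a : H) x h
    exact Subtype.ext this
  have _ : Fintype N := Fintype.ofFinite N
  have h2 : Nat.card (orbitRel.Quotient N V × N) = Nat.card V :=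
    Nat.card_congr (Equiv.ofBijective _ (Pool.Agent.H422R3.Kom.coords (H := N) (X := V) hN))
  rw [Nat.card_prod] at h1 h2
  have h3 : Nat.card N * N.index = Nat.card H := N.card_mul_index
  have h4 : 0 < Nat.card N := Nat.card_pos
  have h5 : Nat.card (orbitRel.Quotient N V) * Nat.card N =
      (Nat.card (orbitRel.Quotient H V) * N.index) * Nat.card N := by
    rw [h2, ← h1, ← h3]; ring
  exact Nat.eq_of_mul_eq_mul_right h4 h5

/-- reduction along a subgroup which separates -/
theorem quot {M V : Type} [Fintype M] [Fintype V] [MulAction H M] [MulAction H V]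
    (S : M → Finset V) (hinv : ∀ (a : H) (i : M) (x : V), a • x ∈ S (a • i) ↔ x ∈ S i)
    (N : Subgroup H)
    (hN : ∀ (a : H) (i : M) (x : V), a ∈ N → x ∈ S i → x ∈ S (a • i) → a = 1)
    (t : ℕ) (hdeg : ∀ x : V, Nat.card {i : M // x ∈ S i} ≤ t) (B : ℝ)
    (hB : GoodSys t (Nat.card (orbitRel.Quotient N V)) B) :
    ∃ χ : V → ℤ, (∀ x, χ x = 1 ∨ χ x = -1) ∧ ∀ i, ((|∑ x ∈ S i, χ x| : ℤ) : ℝ) ≤ B := by
  classical
  let _ : Fintype (orbitRel.Quotient N V) := Fintype.ofFinite _
  let _ : Fintype (orbitRel.Quotient N M) := Fintype.ofFinite _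
  let pV : V → orbitRel.Quotient N V := fun x => Quotient.mk (orbitRel N V) x
  let pM : M → orbitRel.Quotient N M := fun i => Quotient.mk (orbitRel N M) i
  have hpV : ∀ x y, pV x = pV y ↔ ∃ a ∈ N, a • y = x := by
    intro x y
    constructor
    · intro h
      have h1 : (orbitRel N V) x y := Quotient.exact h
      obtain ⟨a, ha⟩ := h1
      exact ⟨a.1, a.2, ha⟩
    · rintro ⟨a, ha, h⟩
      exact Quotient.sound ⟨⟨a, ha⟩, h⟩
  have hpM : ∀ x y, pM x = pM y ↔ ∃ a ∈ N, a • y = x := by
    intro x y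
    constructor
    · intro h
      have h1 : (orbitRel N M) x y := Quotient.exact h
      obtain ⟨a, ha⟩ := h1
      exact ⟨a.1, a.2, ha⟩
    · rintro ⟨a, ha, h⟩
      exact Quotient.sound ⟨⟨a, ha⟩, h⟩
  have hout : ∀ q : orbitRel.Quotient N M, pM (Quotient.out q) = q := fun q => Quotient.out_eq q
  have houtV : ∀ q : orbitRel.Quotient N V, pV (Quotient.out q) = q := fun q => Quotient.out_eq q
  -- injectivity
  have hinj : ∀ i, Set.InjOn pV (S i) := by
    intro i x hx y hy h
    obtain ⟨a, ha, hax⟩ := (hpV x y).mp h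
    have h1 : y ∈ S (a⁻¹ • i) := by
      rw [← hinv a, hax, smul_inv_smul]
      exact hx
    have h2 := hN a⁻¹ i y (N.inv_mem ha) hy h1
    have h3 : a = 1 := inv_eq_one.mp h2
    rw [← hax, h3, one_smul]
  obtain ⟨χ, h1, h2⟩ := good_types hB (fun q : orbitRel.Quotient N M => (S (Quotient.out q)).image pV)
    (by rw [Nat.card_eq_fintype_card]) (by
      intro q
      refine le_trans ?_ (hdeg (Quotient.out q))
      have hsub : ∀ i : {i : orbitRel.Quotient N M // q ∈ (S (Quotient.out i)).image pV},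
          ∃ i' : {i : M // Quotient.out q ∈ S i}, pM i'.1 = i.1 := by
        rintro ⟨i, hi⟩
        obtain ⟨x, hx, hxq⟩ := Finset.mem_image.mp hi
        have h3 : pV (Quotient.out q) = pV x := by rw [houtV, hxq]
        obtain ⟨a, ha, hax⟩ := (hpV _ _).mp h3
        refine ⟨⟨a • Quotient.out i, ?_⟩, ?_⟩
        · rw [← hax, hinv]; exact hx
        · change pM (a • Quotient.out i) = i
          rw [← hout i]
          rw [hpM]
          exact ⟨a, ha, by rw [hout i]⟩
      choose g hg using hsub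
      have hginj : Function.Injective g := by
        intro i j hij
        apply Subtype.ext
        rw [← hg i, ← hg j, hij]
      exact Nat.card_le_card_of_injective g hginj)
  refine ⟨fun x => χ (pV x), fun x => h1 _, fun i => ?_⟩
  have h3 := h2 (pM i)
  obtain ⟨a, ha, hai⟩ := (hpM i (Quotient.out (pM i))).mp (by rw [hout])
  have h4 : ∑ x ∈ S i, χ (pV x) = ∑ x ∈ (S (Quotient.out (pM i))).image pV, χ x := by
    rw [Finset.sum_image (fun x hx y hy h => hinj _ hx hy h)]
    symm
    refine Finset.sum_bij (fun x _ => a • x) ?_ ?_ ?_ ?_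
    · intro x hx
      rw [← hai, hinv]; exact hx
    · intro x _ y _ h
      exact smul_left_cancel a h
    · intro y hy
      refine ⟨a⁻¹ • y, ?_, by rw [smul_inv_smul]⟩
      rw [← hinv a, smul_inv_smul, hai]
      exact hy
    · intro x _
      congr 1
      exact ((hpV (a • x) x).mpr ⟨a, ha, rfl⟩).symm
  simp only
  rw [h4]
  exact h3

/-- set systems with a free abelian group of symmetries: reduction to few points -/
theorem reduce (e : ℕ) (he : 1 ≤ e) (hexp : ∀ a : H, a ^ e = 1) {M V : Type} [Fintype M]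
    [Fintype V] [MulAction H M] [MulAction H V] (S : M → Finset V)
    (hM : ∀ (a : H) (i : M), a • i = i → a = 1) (hV : ∀ (a : H) (x : V), a • x = x → a = 1)
    (hinv : ∀ (a : H) (i : M) (x : V), a • x ∈ S (a • i) ↔ x ∈ S i)
    (t : ℕ) (hdeg : ∀ x : V, Nat.card {i : M // x ∈ S i} ≤ t) (B : ℝ)
    (hB : GoodSys t (Nat.card (orbitRel.Quotient H V) *
      e ^ (Nat.log 2 (Nat.card (orbitRel.Quotient H V) * t ^ 2) + 1)) B) :
    ∃ χ : V → ℤ, (∀ x, χ x = 1 ∨ χ x = -1) ∧ ∀ i, ((|∑ x ∈ S i, χ x| : ℤ) : ℝ) ≤ B := by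
  classical
  set r := Nat.card (orbitRel.Quotient H V) with hr
  let _ : Fintype (orbitRel.Quotient H V) := Fintype.ofFinite _
  have hrF : Fintype.card (orbitRel.Quotient H V) = r := by rw [hr, Nat.card_eq_fintype_card]
  let F : Finset H := univ.filter fun c => c ≠ 1 ∧ ∃ (i : M) (x : V), x ∈ S i ∧ x ∈ S (c • i)
  have hF1 : ∀ c ∈ F, c ≠ 1 := fun c hc => (Finset.mem_filter.mp hc).2.1
  have hmem : ∀ c ∈ F, ∃ (o : orbitRel.Quotient H V) (i : M), Quotient.out o ∈ S i ∧
      Quotient.out o ∈ S (c • i) := by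
    intro c hc
    obtain ⟨_, i, x, h1, h2⟩ := (Finset.mem_filter.mp hc).2
    have h3 : (orbitRel H V) (Quotient.out (Quotient.mk (orbitRel H V) x)) x := Quotient.mk_out x
    obtain ⟨h, hh⟩ := h3
    have hh' : h • x = Quotient.out (Quotient.mk (orbitRel H V) x) := hh
    refine ⟨Quotient.mk (orbitRel H V) x, h • i, ?_, ?_⟩
    · rw [← hh', hinv]; exact h1
    · rw [← hh', ← mul_smul, mul_comm c h, mul_smul, hinv]; exact h2
  choose o hi ho1 ho2 using hmem
  have hcard : F.card ≤ r * t ^ 2 := by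
    have hfin : ∀ q : orbitRel.Quotient H V, (univ.filter fun i : M => Quotient.out q ∈ S i).card ≤ t := by
      intro q
      have := hdeg (Quotient.out q)
      rw [Nat.card_eq_fintype_card, Fintype.card_subtype] at this
      exact this
    let T : Finset (Σ _ : orbitRel.Quotient H V, M × M) :=
      univ.sigma fun q => (univ.filter fun i : M => Quotient.out q ∈ S i) ×ˢ
        (univ.filter fun i : M => Quotient.out q ∈ S i)
    have hT : T.card ≤ r * t ^ 2 := by
      simp only [T, Finset.card_sigma, Finset.card_product]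
      calc ∑ q, (univ.filter fun i : M => Quotient.out q ∈ S i).card *
            (univ.filter fun i : M => Quotient.out q ∈ S i).card
          ≤ ∑ _q : orbitRel.Quotient H V, t * t :=
            Finset.sum_le_sum fun q _ => Nat.mul_le_mul (hfin q) (hfin q)
        _ = r * t ^ 2 := by
            rw [Finset.sum_const, Finset.card_univ, hrF, smul_eq_mul]; ring
    refine le_trans ?_ hT
    rw [← Finset.card_attach]
    refine Finset.card_le_card_of_injOn
      (fun c => ⟨o c.1 c.2, (hi c.1 c.2, c.1 • hi c.1 c.2)⟩) ?_ ?_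
    · intro c _
      have h1 := ho1 c.1 c.2
      have h2 := ho2 c.1 c.2
      simp only [T, Finset.coe_sigma, Set.mem_sigma_iff, Finset.coe_product, Set.mem_prod,
        Finset.coe_filter, Finset.coe_univ, Set.mem_univ, true_and]
      exact ⟨⟨Finset.mem_univ _, h1⟩, ⟨Finset.mem_univ _, h2⟩⟩
    · intro c _ c' _ h
      have h3 : (hi c.1 c.2, c.1 • hi c.1 c.2) = (hi c'.1 c'.2, c'.1 • hi c'.1 c'.2) := by
        have h2 := congrArg Sigma.snd h
        exact h2
      rw [Prod.mk.injEq] at h3
      obtain ⟨h4, h5⟩ := h3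
      rw [← h4] at h5
      have h6 : (c'.1⁻¹ * c.1) • hi c.1 c.2 = hi c.1 c.2 := by
        rw [mul_smul, h5, inv_smul_smul]
      have h7 := hM _ _ h6
      exact Subtype.ext (inv_mul_eq_one.mp h7).symm
  obtain ⟨N, hN1, hN2⟩ := sep e he hexp (Nat.log 2 (r * t ^ 2) + 1) F hF1
    (lt_of_le_of_lt hcard (Nat.lt_pow_succ_log_self (by norm_num) _))
  refine quot S hinv N ?_ t hdeg B ?_
  · intro a i x ha h1 h2
    by_contra hne
    exact hN1 a (Finset.mem_filter.mpr ⟨Finset.mem_univ _, hne, i, x, h1, h2⟩) ha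
  · rw [card_quot hV N, ← hr]
    intro m k S' hk
    exact hB m k S' (hk.trans (Nat.mul_le_mul_left _ hN2))

end Pool.Agent.TH360.BF
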